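import Mathlib

set_option autoImplicit false

namespace Pool.Agent.LibConfluent

/-- `C` is a connected component of the set `E`. -/
def IsComponentOf {X : Type} [TopologicalSpace X] (C E : Set X) : Prop :=
  ∃ x ∈ E, C = connectedComponentIn E x

/-- `K` is a subcontinuum of the space: a nonempty compact connected subset. -/
def IsSubcontinuum {X : Type} [TopologicalSpace X] (K : Set X) : Prop :=
  IsCompact K ∧ IsConnected K

/-- A confluent mapping of `X` onto `Y`: a continuous surjection such that every component of the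
preimage of a subcontinuum `K` of `Y` is mapped onto `K`. -/
structure Confluent {X Y : Type} [TopologicalSpace X] [TopologicalSpace Y] (f : X → Y) :
    Prop where
  continuous : Continuous f
  surjective : Function.Surjective f
  image_component : ∀ K : Set Y, IsSubcontinuum K → ∀ C : Set X, IsComponentOf C (f ⁻¹' K) →
    f '' C = K

/-- A finite open cover of a space, as an indexed family. -/
structure FinOpenCover (X : Type) [TopologicalSpace X] where
  /-- the index type -/
  ι : Type
  /-- the index type is finite -/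
  finite : Finite ι
  /-- the members -/
  U : ι → Set X
  isOpen : ∀ i, IsOpen (U i)
  covers : ∀ x, ∃ i, x ∈ U i

/-- An `(n+1)`-tuple of indices spans a simplex of the nerve when the members it names have
nonempty intersection. -/
def FinOpenCover.IsSimplex {X : Type} [TopologicalSpace X] (𝒰 : FinOpenCover X) {n : ℕ}
    (s : Fin (n + 1) → 𝒰.ι) : Prop :=
  ∃ x, ∀ j, x ∈ 𝒰.U (s j)

/-- The coboundary of an integral cochain on ordered tuples. -/
def coboundary {ι : Type} {n : ℕ} (c : (Fin (n + 1) → ι) → ℤ) (s : Fin (n + 2) → ι) : ℤ :=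
  ∑ j : Fin (n + 2), (-1) ^ (j : ℕ) * c (s ∘ j.succAbove)

/-- `c` restricts to a cocycle of the nerve of the cover. -/
def FinOpenCover.IsCocycle {X : Type} [TopologicalSpace X] (𝒰 : FinOpenCover X) {n : ℕ}
    (c : (Fin (n + 1) → 𝒰.ι) → ℤ) : Prop :=
  ∀ s : Fin (n + 2) → 𝒰.ι, 𝒰.IsSimplex s → coboundary c s = 0

/-- `c` restricts to a coboundary of the augmented (reduced) cochain complex of the nerve:
a constant function in degree `0`, the coboundary of an `n`-cochain in degree `n + 1`. -/
def FinOpenCover.IsReducedCoboundary {X : Type} [TopologicalSpace X] (𝒰 : FinOpenCover X) :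
    (n : ℕ) → ((Fin (n + 1) → 𝒰.ι) → ℤ) → Prop
  | 0, c => ∃ a : ℤ, ∀ s : Fin 1 → 𝒰.ι, 𝒰.IsSimplex s → c s = a
  | n + 1, c => ∃ b : (Fin (n + 1) → 𝒰.ι) → ℤ, ∀ s : Fin (n + 2) → 𝒰.ι, 𝒰.IsSimplex s →
      c s = coboundary b s

/-- The reduced Čech cohomology with integer coefficients of the (compact) space `X` vanishes in
all degrees: `X` is nonempty and every Čech cocycle of a finite open cover becomes a reduced
coboundary on some finite open refinement. -/
def CechAcyclic (X : Type) [TopologicalSpace X] : Prop :=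
  Nonempty X ∧ ∀ (𝒰 : FinOpenCover X) (n : ℕ) (c : (Fin (n + 1) → 𝒰.ι) → ℤ), 𝒰.IsCocycle c →
    ∃ (𝒱 : FinOpenCover X) (π : 𝒱.ι → 𝒰.ι), (∀ i, 𝒱.U i ⊆ 𝒰.U (π i)) ∧
      𝒱.IsReducedCoboundary n (fun s => c (π ∘ s))

end Pool.Agent.LibConfluent
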