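import Mathlib

set_option autoImplicit false

namespace Pool.Agent.LibConfluent

/-! Coboundary and prism operator for cochains on lists of vertices. -/

/-- coboundary of a function on lists, defined recursively -/
def dL {α : Type*} : (List α → ℤ) → List α → ℤ
  | _, [] => 0
  | c, a :: l => c l - dL (fun m => c (a :: m)) l

/-- prism operator -/
def prL {α β : Type*} (φ ψ : β → α) : (List α → ℤ) → List β → ℤ
  | _, [] => 0
  | c, a :: l => c (φ a :: ψ a :: l.map ψ) - prL φ ψ (fun m => c (φ a :: m)) l

theorem dL_sub {α : Type*} (l : List α) : ∀ (c c' : List α → ℤ),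
    dL (fun m => c m - c' m) l = dL c l - dL c' l := by
  induction l with
  | nil => intro c c'; simp [dL]
  | cons a l ih =>
    intro c c'
    simp only [dL]
    rw [ih (fun m => c (a :: m)) (fun m => c' (a :: m))]
    ring

theorem dL_add {α : Type*} (l : List α) : ∀ (c c' : List α → ℤ),
    dL (fun m => c m + c' m) l = dL c l + dL c' l := by
  induction l with
  | nil => intro c c'; simp [dL]
  | cons a l ih =>
    intro c c'
    simp only [dL]
    rw [ih (fun m => c (a :: m)) (fun m => c' (a :: m))]
    ring

theorem prL_sub {α β : Type*} (φ ψ : β → α) (l : List β) : ∀ (c c' : List α → ℤ),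
    prL φ ψ (fun m => c m - c' m) l = prL φ ψ c l - prL φ ψ c' l := by
  induction l with
  | nil => intro c c'; simp [prL]
  | cons a l ih =>
    intro c c'
    simp only [prL]
    rw [ih (fun m => c (φ a :: m)) (fun m => c' (φ a :: m))]
    ring

theorem dL_map {α β : Type*} (ψ : β → α) (l : List β) : ∀ (c : List α → ℤ),
    dL (fun m => c (m.map ψ)) l = dL c (l.map ψ) := by
  induction l with
  | nil => intro c; simp [dL]
  | cons a l ih =>
    intro c
    simp only [dL, List.map_cons]
    rw [ih (fun m => c (ψ a :: m))]

/-- the prism identity -/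
theorem prism {α β : Type*} (φ ψ : β → α) (l : List β) : ∀ (c : List α → ℤ),
    dL (prL φ ψ c) l + prL φ ψ (dL c) l = c (l.map ψ) - c (l.map φ) := by
  induction l with
  | nil => intro c; simp [dL, prL]
  | cons a l ih =>
    intro c
    have h1 := ih (fun m => c (φ a :: m))
    have h2 : dL (fun m => prL φ ψ c (a :: m)) l
        = dL (fun m => c (φ a :: ψ a :: m)) (l.map ψ)
          - dL (prL φ ψ (fun m => c (φ a :: m))) l := by
      have : (fun m => prL φ ψ c (a :: m)) =
          fun m => (fun m' : List β => c (φ a :: ψ a :: m'.map ψ)) m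
            - (prL φ ψ (fun m => c (φ a :: m))) m := by
        funext m; simp [prL]
      rw [this, dL_sub, dL_map ψ l (fun m => c (φ a :: ψ a :: m))]
    have h3 : prL φ ψ (fun m => dL c (φ a :: m)) l
        = prL φ ψ c l - prL φ ψ (dL (fun m => c (φ a :: m))) l := by
      have : (fun m => dL c (φ a :: m)) =
          fun m => c m - dL (fun m => c (φ a :: m)) m := by
        funext m; simp [dL]
      rw [this, prL_sub]
    simp only [dL, prL, List.map_cons] at *
    rw [h2, h3]
    linarith

end Pool.Agent.LibConfluent
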