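import Mathlib
import Pool.Agent.LibConfluent.Defs
import Pool.Agent.LibConfluent.Prism

set_option autoImplicit false

namespace Pool.Agent.LibConfluent

theorem dL_eq_sum {α : Type*} (l : List α) : ∀ (c : List α → ℤ),
    dL c l = ∑ j ∈ Finset.range l.length, (-1) ^ j * c (l.eraseIdx j) := by
  induction l with
  | nil => intro c; simp [dL]
  | cons a l ih =>
    intro c
    simp only [dL, List.length_cons]
    rw [Finset.sum_range_succ', ih]
    simp only [List.eraseIdx_cons_succ, List.eraseIdx_cons_zero, pow_zero, one_mul]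
    rw [add_comm, sub_eq_add_neg, ← Finset.sum_neg_distrib]
    congr 1
    refine Finset.sum_congr rfl (fun j _ => ?_)
    rw [pow_succ]; ring

theorem ofFn_eraseIdx {α : Type*} {n : ℕ} (s : Fin (n + 1) → α) (j : Fin (n + 1)) :
    (List.ofFn s).eraseIdx j = List.ofFn (s ∘ j.succAbove) := by
  apply List.ext_getElem
  · simp [List.length_eraseIdx]; omega
  · intro i h1 h2
    rw [List.getElem_eraseIdx]
    simp only [List.getElem_ofFn, Function.comp]
    split_ifs with h
    · congr 1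
      rw [Fin.succAbove_of_castSucc_lt]
      · rfl
      · exact h
    · congr 1
      rw [Fin.succAbove_of_le_castSucc]
      · rfl
      · simp only [not_lt] at h; exact h

/-- extend a cochain on tuples to lists -/
def toL {α : Type*} {n : ℕ} (c : (Fin n → α) → ℤ) (l : List α) : ℤ :=
  if h : l.length = n then c (fun i => l.get (i.cast h.symm)) else 0

theorem toL_ofFn {α : Type*} {n : ℕ} (c : (Fin n → α) → ℤ) (s : Fin n → α) :
    toL c (List.ofFn s) = c s := by
  unfold toL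
  rw [dif_pos (by simp)]
  congr 1
  funext i
  simp

theorem dL_toL {α : Type} {n : ℕ} (c : (Fin (n + 1) → α) → ℤ) (s : Fin (n + 2) → α) :
    dL (toL c) (List.ofFn s) = coboundary c s := by
  rw [dL_eq_sum, coboundary, List.length_ofFn, Finset.sum_range]
  refine Finset.sum_congr rfl (fun j _ => ?_)
  rw [ofFn_eraseIdx, toL_ofFn]

/-- a list of indices all of whose members share a point -/
def ListSimplex {X : Type} [TopologicalSpace X] (𝒰 : FinOpenCover X) (l : List 𝒰.ι) : Prop :=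
  ∃ x, ∀ i ∈ l, x ∈ 𝒰.U i

theorem listSimplex_ofFn {X : Type} [TopologicalSpace X] (𝒰 : FinOpenCover X) {n : ℕ}
    (s : Fin (n + 1) → 𝒰.ι) : ListSimplex 𝒰 (List.ofFn s) ↔ 𝒰.IsSimplex s := by
  unfold ListSimplex FinOpenCover.IsSimplex
  simp only [List.forall_mem_ofFn_iff]

/-- prism operator only sees lists made of `φ`, `ψ` values -/
theorem prL_zero_of {α β : Type} (φ ψ : β → α) (l : List β) :
    ∀ (c : List α → ℤ),
    (∀ m : List α, m.length = l.length + 1 → (∀ i ∈ m, ∃ b ∈ l, i = φ b ∨ i = ψ b) → c m = 0) →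
    prL φ ψ c l = 0 := by
  induction l with
  | nil => intro c _; simp [prL]
  | cons a l ih =>
    intro c hc
    simp only [prL]
    rw [hc, ih, sub_zero]
    · intro m hm hmem
      apply hc
      · simp [hm]
      · intro i hi
        rcases List.mem_cons.1 hi with rfl | hi
        · exact ⟨a, by simp, Or.inl rfl⟩
        · obtain ⟨b, hb, h⟩ := hmem i hi
          exact ⟨b, by simp [hb], h⟩
    · simp
    · intro i hi
      simp only [List.mem_cons, List.mem_map] at hi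
      rcases hi with rfl | rfl | ⟨b, hb, rfl⟩
      · exact ⟨a, by simp, Or.inl rfl⟩
      · exact ⟨a, by simp, Or.inr rfl⟩
      · exact ⟨b, by simp [hb], Or.inr rfl⟩

/-- contiguous maps of index sets -/
def Contig {X : Type} [TopologicalSpace X] (𝒰 𝒱 : FinOpenCover X) (φ ψ : 𝒱.ι → 𝒰.ι) : Prop :=
  ∀ l : List 𝒱.ι, ListSimplex 𝒱 l → ListSimplex 𝒰 (l.map φ ++ l.map ψ)

theorem contig_zero {X : Type} [TopologicalSpace X] (𝒰 𝒱 : FinOpenCover X) (φ ψ : 𝒱.ι → 𝒰.ι)
    (h : Contig 𝒰 𝒱 φ ψ) {c : (Fin 1 → 𝒰.ι) → ℤ} (hc : 𝒰.IsCocycle c) (s : Fin 1 → 𝒱.ι)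
    (hs : 𝒱.IsSimplex s) : c (ψ ∘ s) - c (φ ∘ s) = 0 := by
  have h1 := hc ![φ (s 0), ψ (s 0)] ?_
  · simp only [coboundary] at h1
    have e1 : (![φ (s 0), ψ (s 0)] : Fin 2 → 𝒰.ι) ∘ (0 : Fin 2).succAbove = ψ ∘ s := by
      funext i; fin_cases i; simp
    have e2 : (![φ (s 0), ψ (s 0)] : Fin 2 → 𝒰.ι) ∘ (1 : Fin 2).succAbove = φ ∘ s := by
      funext i; fin_cases i; simp
    have h2 : (∑ j : Fin 2, (-1) ^ (j : ℕ) * c (![φ (s 0), ψ (s 0)] ∘ j.succAbove)) = 0 := h1
    rw [Fin.sum_univ_two, e1, e2] at h2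
    simp at h2
    linarith
  · obtain ⟨x, hx⟩ := h (List.ofFn s) ((listSimplex_ofFn 𝒱 s).2 hs)
    refine ⟨x, fun j => ?_⟩
    fin_cases j
    · exact hx _ (by simp)
    · exact hx _ (by simp)

theorem contig_succ {X : Type} [TopologicalSpace X] (𝒰 𝒱 : FinOpenCover X) (φ ψ : 𝒱.ι → 𝒰.ι)
    (h : Contig 𝒰 𝒱 φ ψ) {n : ℕ} {c : (Fin (n + 2) → 𝒰.ι) → ℤ} (hc : 𝒰.IsCocycle c) :
    ∃ b : (Fin (n + 1) → 𝒱.ι) → ℤ, ∀ s : Fin (n + 2) → 𝒱.ι, 𝒱.IsSimplex s →
      c (ψ ∘ s) - c (φ ∘ s) = coboundary b s := by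
  refine ⟨fun t => prL φ ψ (toL c) (List.ofFn t), fun s hs => ?_⟩
  have hp := prism φ ψ (List.ofFn s) (toL c)
  have h0 : prL φ ψ (dL (toL c)) (List.ofFn s) = 0 := by
    apply prL_zero_of φ ψ
    intro m hm hmem
    have hm' : m.length = n + 3 := by simpa using hm
    have : m = List.ofFn (fun i : Fin (n + 3) => m.get (i.cast hm'.symm)) := by
      apply List.ext_getElem
      · simp [hm']
      · intro i h1 h2; simp only [List.getElem_ofFn, List.get_eq_getElem, Fin.val_cast]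
    rw [this, dL_toL]
    apply hc
    rw [← listSimplex_ofFn, ← this]
    obtain ⟨x, hx⟩ := h (List.ofFn s) ((listSimplex_ofFn 𝒱 s).2 hs)
    refine ⟨x, fun i hi => hx i ?_⟩
    obtain ⟨b, hb, hib⟩ := hmem i hi
    rcases hib with rfl | rfl
    · exact List.mem_append_left _ (List.mem_map_of_mem hb)
    · exact List.mem_append_right _ (List.mem_map_of_mem hb)
  rw [h0, add_zero, List.map_ofFn, List.map_ofFn, toL_ofFn, toL_ofFn] at hp
  rw [← hp]
  rw [dL_eq_sum, coboundary, List.length_ofFn, Finset.sum_range]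
  refine Finset.sum_congr rfl (fun j _ => ?_)
  rw [ofFn_eraseIdx]

end Pool.Agent.LibConfluent
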