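import Mathlib
import Pool.Agent.LibConfluent.Defs
import Pool.Agent.LibConfluent.Cech

set_option autoImplicit false

namespace Pool.Agent.LibConfluent

open Metric

theorem coboundary_sub {ι : Type} {n : ℕ} (b b' : (Fin (n + 1) → ι) → ℤ) (s : Fin (n + 2) → ι) :
    coboundary (fun t => b t - b' t) s = coboundary b s - coboundary b' s := by
  simp only [coboundary, mul_sub, Finset.sum_sub_distrib]

theorem redCob_sub {X : Type} [TopologicalSpace X] (𝒱 : FinOpenCover X) (n : ℕ)
    {c c' : (Fin (n + 1) → 𝒱.ι) → ℤ} (h : 𝒱.IsReducedCoboundary n c)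
    (h' : 𝒱.IsReducedCoboundary n c') :
    𝒱.IsReducedCoboundary n (fun s => c s - c' s) := by
  cases n with
  | zero =>
    obtain ⟨a, ha⟩ := h
    obtain ⟨a', ha'⟩ := h'
    exact ⟨a - a', fun s hs => by simp only [ha s hs, ha' s hs]⟩
  | succ n =>
    obtain ⟨a, ha⟩ := h
    obtain ⟨a', ha'⟩ := h'
    exact ⟨fun t => a t - a' t, fun s hs => by
      simp only [ha s hs, ha' s hs, coboundary_sub]⟩

theorem redCob_congr {X : Type} [TopologicalSpace X] (𝒱 : FinOpenCover X) (n : ℕ)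
    {c c' : (Fin (n + 1) → 𝒱.ι) → ℤ} (h : 𝒱.IsReducedCoboundary n c)
    (h' : ∀ s, c' s = c s) : 𝒱.IsReducedCoboundary n c' := by
  have : c' = c := funext h'
  rw [this]; exact h

theorem redCob_zero {X : Type} [TopologicalSpace X] (𝒱 : FinOpenCover X) (n : ℕ) :
    𝒱.IsReducedCoboundary n (fun _ => 0) := by
  cases n with
  | zero => exact ⟨0, fun s _ => rfl⟩
  | succ n => exact ⟨fun _ => 0, fun s _ => by simp [coboundary]⟩

theorem redCob_contig {X : Type} [TopologicalSpace X] (𝒰 𝒱 : FinOpenCover X)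
    (φ ψ : 𝒱.ι → 𝒰.ι) (h : Contig 𝒰 𝒱 φ ψ) {n : ℕ} {c : (Fin (n + 1) → 𝒰.ι) → ℤ}
    (hc : 𝒰.IsCocycle c) :
    𝒱.IsReducedCoboundary n (fun s => c (ψ ∘ s) - c (φ ∘ s)) := by
  cases n with
  | zero => exact ⟨0, fun s hs => contig_zero 𝒰 𝒱 φ ψ h hc s hs⟩
  | succ n => exact contig_succ 𝒰 𝒱 φ ψ h hc

theorem redCob_const {X : Type} [TopologicalSpace X] (𝒰 𝒱 : FinOpenCover X)
    (u : 𝒰.ι) (hu : (𝒰.U u).Nonempty) {n : ℕ} {c : (Fin (n + 1) → 𝒰.ι) → ℤ}
    (hc : 𝒰.IsCocycle c) :
    𝒱.IsReducedCoboundary n (fun _ => c (fun _ => u)) := by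
  cases n with
  | zero => exact ⟨c (fun _ => u), fun s _ => rfl⟩
  | succ n =>
    have h1 : coboundary c (fun _ : Fin (n + 3) => u) = 0 := by
      apply hc
      obtain ⟨x, hx⟩ := hu
      exact ⟨x, fun _ => hx⟩
    have h2 : ∀ (k : ℕ), (∑ j : Fin k, (-1 : ℤ) ^ (j : ℕ)) = if Even k then 0 else 1 := by
      intro k
      exact Fin.sum_neg_one_pow ℤ k
    rcases Nat.even_or_odd (n + 2) with he | ho
    · -- n + 3 is odd
      have h3 : c (fun _ => u) = 0 := by
        have : coboundary c (fun _ : Fin (n + 3) => u)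
            = (∑ j : Fin (n + 3), (-1 : ℤ) ^ (j : ℕ)) * c (fun _ => u) := by
          rw [coboundary, Finset.sum_mul]; rfl
        rw [this, h2, if_neg] at h1
        · simpa using h1
        · rw [Nat.not_even_iff_odd]; exact he.add_one
      rw [h3]
      exact redCob_zero 𝒱 (n + 1)
    · refine ⟨fun _ => c (fun _ => u), fun s _ => ?_⟩
      have : coboundary (fun _ : Fin (n + 1) → 𝒱.ι => c (fun _ => u)) s
          = (∑ j : Fin (n + 2), (-1 : ℤ) ^ (j : ℕ)) * c (fun _ => u) := by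
        rw [coboundary, Finset.sum_mul]
      rw [this, h2, if_neg, one_mul]
      rw [Nat.not_even_iff_odd]; exact ho

/-- coarse closeness of two self-maps -/
def Close {X : Type} [MetricSpace X] (ε δ : ℝ) (f g : X → X) : Prop :=
  ∀ x x', dist x x' < δ → dist (f x) (f x') < ε ∧ dist (f x) (g x') < ε

/-- for every `ε` the identity is joined to a constant by a chain of `ε`-close maps -/
def ChainContractible (X : Type) [MetricSpace X] : Prop :=
  ∀ ε : ℝ, 0 < ε → ∃ δ : ℝ, 0 < δ ∧ ∃ x0 : X, Relation.ReflTransGen (Close ε δ) id (fun _ => x0)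

theorem cechAcyclic_of_chainContractible {X : Type} [MetricSpace X] [CompactSpace X]
    [Nonempty X] (h : ChainContractible X) : CechAcyclic X := by
  refine ⟨inferInstance, fun 𝒰 n c hc => ?_⟩
  obtain ⟨ε, hε, hleb⟩ := lebesgue_number_lemma_of_metric (s := (Set.univ : Set X))
    isCompact_univ 𝒰.isOpen (fun x _ => by
      obtain ⟨i, hi⟩ := 𝒰.covers x
      exact Set.mem_iUnion.2 ⟨i, hi⟩)
  have hleb' : ∀ x, ∃ i, ball x ε ⊆ 𝒰.U i := fun x => hleb x (Set.mem_univ x)
  choose ι0 hι0 using hleb'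
  obtain ⟨δ, hδ, x0, hch⟩ := h ε hε
  have hδ' : 0 < min (δ / 2) ε := lt_min (by linarith) hε
  obtain ⟨t, _, htfin, htcov⟩ := finite_cover_balls_of_compact (isCompact_univ (X := X)) hδ'
  let 𝒱 : FinOpenCover X :=
    { ι := t
      finite := htfin
      U := fun a => ball (a : X) (min (δ / 2) ε)
      isOpen := fun a => isOpen_ball
      covers := fun x => by
        have := htcov (Set.mem_univ x)
        simp only [Set.mem_iUnion] at this
        obtain ⟨y, hy, hxy⟩ := this
        exact ⟨⟨y, hy⟩, hxy⟩ }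
  let P : (X → X) → 𝒱.ι → 𝒰.ι := fun f a => ι0 (f (a : X))
  have hcontig : ∀ f g : X → X, Close ε δ f g → Contig 𝒰 𝒱 (P f) (P g) := by
    intro f g hfg l hl
    obtain ⟨z, hz⟩ := hl
    rcases l with _ | ⟨a0, l⟩
    · exact ⟨Classical.arbitrary X, by simp⟩
    · refine ⟨f (a0 : X), fun i hi => ?_⟩
      have hd : ∀ a ∈ (a0 :: l), dist (a : X) (a0 : X) < δ := by
        intro a ha
        have h1 : dist z (a : X) < δ / 2 := lt_of_lt_of_le (hz a ha) (min_le_left _ _)
        have h2 : dist z (a0 : X) < δ / 2 := lt_of_lt_of_le (hz a0 (by simp)) (min_le_left _ _)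
        calc dist (a : X) (a0 : X) ≤ dist (a : X) z + dist z (a0 : X) := dist_triangle _ _ _
          _ < δ := by rw [dist_comm (a : X) z]; linarith
      rw [List.mem_append, List.mem_map, List.mem_map] at hi
      rcases hi with ⟨a, ha, rfl⟩ | ⟨a, ha, rfl⟩
      · apply hι0
        rw [mem_ball]
        have := (hfg (a0 : X) (a : X) (by rw [dist_comm]; exact hd a ha)).1
        exact this
      · apply hι0
        rw [mem_ball]
        have := (hfg (a0 : X) (a : X) (by rw [dist_comm]; exact hd a ha)).2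
        exact this
  have hchain : ∀ g : X → X, Relation.ReflTransGen (Close ε δ) id g →
      𝒱.IsReducedCoboundary n (fun s => c (P id ∘ s) - c (P g ∘ s)) := by
    intro g hg
    induction hg with
    | refl => exact redCob_congr 𝒱 n (redCob_zero 𝒱 n) (fun s => by simp)
    | @tail f g _ hfg ih =>
      refine redCob_congr 𝒱 n (redCob_sub 𝒱 n ih
        (redCob_contig 𝒰 𝒱 (P f) (P g) (hcontig f g hfg) hc)) (fun s => ?_)
      ring
  have hfin := hchain _ hch
  have hconst := redCob_const 𝒰 𝒱 (ι0 x0) ⟨x0, hι0 x0 (mem_ball_self hε)⟩ hc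
  refine ⟨𝒱, P id, fun a => ?_, ?_⟩
  · exact (ball_subset_ball (min_le_right _ _)).trans (hι0 (a : X))
  · have hz := redCob_sub 𝒱 n (redCob_zero 𝒱 n) hconst
    refine redCob_congr 𝒱 n (redCob_sub 𝒱 n hfin hz) (fun s => ?_)
    have : (P (fun _ => x0) ∘ s) = (fun _ => ι0 x0) := rfl
    rw [this]
    ring

end Pool.Agent.LibConfluent
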