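import Mathlib
import Pool.Agent.LibConfluent.Defs
import Pool.Agent.LibConfluent.Contract

set_option autoImplicit false

namespace Pool.Agent.LibConfluent

open Complex

/-- the spiral, parametrised by the radius -/
noncomputable def gam (r : ℝ) : ℂ := (r : ℂ) * Complex.exp (((1 / (r - 1) : ℝ) : ℂ) * I)

theorem norm_gam {r : ℝ} (hr : 0 ≤ r) : ‖gam r‖ = r := by
  unfold gam
  rw [norm_mul, Complex.norm_exp_ofReal_mul_I, mul_one, Complex.norm_real, Real.norm_of_nonneg hr]

/-- closed unit disk with a ray spiralling to its boundary -/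
def XSet : Set ℂ := {z | ‖z‖ ≤ 1 ∨ (1 < ‖z‖ ∧ ‖z‖ ≤ 2 ∧ z = gam ‖z‖)}

theorem mem_XSet_of_norm_le {z : ℂ} (h : ‖z‖ ≤ 1) : z ∈ XSet := Or.inl h

theorem gam_mem_XSet {r : ℝ} (h1 : 1 < r) (h2 : r ≤ 2) : gam r ∈ XSet := by
  right
  rw [norm_gam (by linarith)]
  exact ⟨h1, h2, rfl⟩

theorem eq_gam_of_mem {z : ℂ} (hz : z ∈ XSet) (h : 1 < ‖z‖) : z = gam ‖z‖ := by
  rcases hz with h' | ⟨_, _, h'⟩
  · linarith
  · exact h'

theorem norm_le_two {z : ℂ} (hz : z ∈ XSet) : ‖z‖ ≤ 2 := by
  rcases hz with h' | ⟨_, h', _⟩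
  · linarith
  · exact h'

theorem continuousOn_gam : ContinuousOn gam {r | 1 < r} := by
  unfold gam
  apply ContinuousOn.mul
  · exact Complex.continuous_ofReal.continuousOn
  · apply ContinuousOn.cexp
    apply ContinuousOn.mul _ continuousOn_const
    apply Complex.continuous_ofReal.comp_continuousOn
    apply ContinuousOn.div continuousOn_const (by fun_prop)
    intro x hx
    have : (1 : ℝ) < x := hx
    linarith

theorem isClosed_XSet : IsClosed XSet := by
  have : XSet = ⋂ n : ℕ, ({z : ℂ | ‖z‖ ≤ 1 + 1 / ((n : ℝ) + 1)} ∪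
      gam '' Set.Icc (1 + 1 / ((n : ℝ) + 1)) 2) := by
    ext z
    simp only [Set.mem_iInter, Set.mem_union, Set.mem_ofPred_eq, Set.mem_image, Set.mem_Icc]
    constructor
    · intro hz n
      have hn : (0 : ℝ) < 1 / ((n : ℝ) + 1) := by positivity
      by_cases h : ‖z‖ ≤ 1 + 1 / ((n : ℝ) + 1)
      · left; exact h
      · right
        push Not at h
        exact ⟨‖z‖, ⟨h.le, norm_le_two hz⟩, (eq_gam_of_mem hz (by linarith)).symm⟩
    · intro hz
      by_cases h : ‖z‖ ≤ 1
      · exact mem_XSet_of_norm_le h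
      · push Not at h
        obtain ⟨n, hn⟩ := exists_nat_one_div_lt (sub_pos.2 h)
        rcases hz n with h' | ⟨r, ⟨hr1, hr2⟩, hr3⟩
        · linarith
        · have hn' : (0 : ℝ) < 1 / ((n : ℝ) + 1) := by positivity
          rw [← hr3]
          exact gam_mem_XSet (by linarith) hr2
  rw [this]
  apply isClosed_iInter
  intro n
  have hn : (0 : ℝ) < 1 / ((n : ℝ) + 1) := by positivity
  apply IsClosed.union
  · exact isClosed_le continuous_norm continuous_const
  · apply IsCompact.isClosed
    apply isCompact_Icc.image_of_continuousOn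
    apply continuousOn_gam.mono
    intro x hx
    have := hx.1
    simp only [Set.mem_ofPred_eq]; linarith

theorem isCompact_XSet : IsCompact XSet := by
  apply Metric.isCompact_of_isClosed_isBounded isClosed_XSet
  apply (Metric.isBounded_closedBall (x := (0 : ℂ)) (r := 2)).subset
  intro z hz
  simpa using norm_le_two hz

instance : CompactSpace XSet := isCompact_iff_compactSpace.1 isCompact_XSet

/-- the part of the spiral with radius at most `R` -/
def tail (R : ℝ) : Set ℂ := gam '' Set.Ioc 1 R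

theorem tail_preconnected (R : ℝ) : IsPreconnected (tail R) := by
  apply isPreconnected_Ioc.image
  apply continuousOn_gam.mono
  intro x hx
  exact hx.1

theorem circle_subset_closure_tail {R : ℝ} (hR : 1 < R) {u : ℂ} (hu : ‖u‖ = 1) :
    u ∈ closure (tail R) := by
  -- r_k = 1 + 1 / (θ + 2 π k)
  have hu' : u = Complex.exp ((Complex.arg u : ℂ) * I) := by
    have := Complex.norm_mul_exp_arg_mul_I u
    rw [hu] at this
    simpa using this.symm
  rw [Metric.mem_closure_iff]
  intro ε hε
  set θ := Complex.arg u with hθ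
  obtain ⟨k, hk⟩ := exists_nat_gt (max (1 / (R - 1)) (1 / ε) + |θ|)
  have hk1 : max (1 / (R - 1)) (1 / ε) < θ + k * (2 * Real.pi) := by
    have h1 : -|θ| ≤ θ := neg_abs_le θ
    have h2 : (k : ℝ) ≤ k * (2 * Real.pi) := by
      have : (1 : ℝ) ≤ 2 * Real.pi := by linarith [Real.pi_gt_three]
      have hk0 : (0 : ℝ) ≤ k := Nat.cast_nonneg k
      nlinarith
    linarith
  have hA : 1 / (R - 1) < θ + k * (2 * Real.pi) := lt_of_le_of_lt (le_max_left _ _) hk1
  have hB : 1 / ε < θ + k * (2 * Real.pi) := lt_of_le_of_lt (le_max_right _ _) hk1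
  set A := θ + k * (2 * Real.pi) with hAdef
  have hApos : 0 < A := lt_trans (by positivity) hB
  have hRpos : 0 < R - 1 := by linarith
  refine ⟨gam (1 + 1 / A), ⟨1 + 1 / A, ⟨?_, ?_⟩, rfl⟩, ?_⟩
  · have : 0 < 1 / A := by positivity
    linarith
  · have : 1 / A ≤ R - 1 := by
      rw [div_le_iff₀ hApos]
      rw [div_lt_iff₀ hRpos] at hA
      linarith
    linarith
  · have h1 : gam (1 + 1 / A) = ((1 + 1 / A : ℝ) : ℂ) * u := by
      unfold gam
      congr 1
      rw [hu', Complex.exp_eq_exp_iff_exists_int]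
      refine ⟨k, ?_⟩
      have : (1 / (1 + 1 / A - 1) : ℝ) = A := by
        field_simp
        simp
      rw [this, hAdef]
      push_cast
      ring
    rw [h1, dist_eq_norm]
    have h2 : u - ((1 + 1 / A : ℝ) : ℂ) * u = -(((1 / A : ℝ) : ℂ) * u) := by
      push_cast; ring
    rw [h2, norm_neg, norm_mul, hu, mul_one, Complex.norm_real, Real.norm_of_nonneg (by positivity)]
    rw [div_lt_iff₀ hApos]
    rw [div_lt_iff₀ hε] at hB
    linarith

end Pool.Agent.LibConfluent
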