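import Mathlib
import Pool.Agent.LibConfluent.Defs
import Pool.Agent.LibConfluent.Contract
import Pool.Agent.LibConfluent.Space

set_option autoImplicit false

namespace Pool.Agent.LibConfluent

open Complex

/-- a chain obtained from a one-parameter family of maps -/
theorem chain_of_family {X : Type} [MetricSpace X] {ε δ τ : ℝ} (hτ : 0 < τ) (h : ℝ → X → X)
    (hh : ∀ t t' : ℝ, 0 ≤ t → t ≤ 1 → 0 ≤ t' → t' ≤ 1 → |t - t'| ≤ τ → ∀ x x' : X,
      dist x x' < δ → dist (h t x) (h t' x') < ε) :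
    Relation.ReflTransGen (Close ε δ) (h 0) (h 1) := by
  obtain ⟨N, hN⟩ := exists_nat_one_div_lt hτ
  have hNpos : (0 : ℝ) < (N : ℝ) + 1 := by positivity
  have key : ∀ k : ℕ, k ≤ N + 1 →
      Relation.ReflTransGen (Close ε δ) (h 0) (h ((k : ℝ) / ((N : ℝ) + 1))) := by
    intro k
    induction k with
    | zero => intro _; simpa using Relation.ReflTransGen.refl
    | succ k ih =>
      intro hk
      refine (ih (by omega)).tail ?_
      intro x x' hx
      have hk' : (k : ℝ) + 1 ≤ (N : ℝ) + 1 := by exact_mod_cast hk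
      have hk0 : (0 : ℝ) ≤ k := Nat.cast_nonneg k
      have a1 : 0 ≤ (k : ℝ) / ((N : ℝ) + 1) := by positivity
      have a2 : (k : ℝ) / ((N : ℝ) + 1) ≤ 1 := by rw [div_le_one hNpos]; linarith
      have b1 : 0 ≤ ((k + 1 : ℕ) : ℝ) / ((N : ℝ) + 1) := by positivity
      have b2 : ((k + 1 : ℕ) : ℝ) / ((N : ℝ) + 1) ≤ 1 := by
        rw [div_le_one hNpos]; push_cast; linarith
      refine ⟨hh _ _ a1 a2 a1 a2 (by simpa using hτ.le) x x' hx, hh _ _ a1 a2 b1 b2 ?_ x x' hx⟩
      have : (k : ℝ) / ((N : ℝ) + 1) - ((k + 1 : ℕ) : ℝ) / ((N : ℝ) + 1) = -(1 / ((N : ℝ) + 1)) := by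
        push_cast; ring
      rw [this, abs_neg, abs_of_pos (by positivity)]
      exact hN.le
  have := key (N + 1) le_rfl
  have e : ((N + 1 : ℕ) : ℝ) / ((N : ℝ) + 1) = 1 := by
    push_cast; field_simp
  rwa [e] at this

/-- radial retraction to the closed unit disk -/
noncomputable def rho (z : ℂ) : ℂ := if ‖z‖ ≤ 1 then z else z / (‖z‖ : ℂ)

theorem norm_rho_le (z : ℂ) : ‖rho z‖ ≤ 1 := by
  unfold rho
  split_ifs with h
  · exact h
  · push Not at h
    rw [norm_div, Complex.norm_real, norm_norm, div_self (by linarith)]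

theorem rho_sub_le {z : ℂ} {η : ℝ} (hη : 0 ≤ η) (h : ‖z‖ ≤ 1 + η) : ‖rho z - z‖ ≤ η := by
  unfold rho
  split_ifs with h1
  · simpa using hη
  · push Not at h1
    have hz : (‖z‖ : ℂ) ≠ 0 := by
      have : ‖z‖ ≠ 0 := by linarith
      exact_mod_cast this
    have : z / (‖z‖ : ℂ) - z = ((1 - ‖z‖ : ℝ) : ℂ) * (z / (‖z‖ : ℂ)) := by
      push_cast; field_simp
    rw [this, norm_mul, norm_div, Complex.norm_real, Complex.norm_real, norm_norm,
      div_self (by linarith), mul_one, Real.norm_eq_abs, abs_le]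
    constructor <;> linarith

theorem chainContractible_XSet : ChainContractible XSet := by
  intro ε hε
  -- parameters
  set η : ℝ := min (ε / 16) (1 / 2) with hηdef
  have hη : 0 < η := lt_min (by linarith) (by norm_num)
  have hηε : η ≤ ε / 16 := min_le_left _ _
  have hη2 : η ≤ 1 / 2 := min_le_right _ _
  set r0 : ℝ := 1 + η with hr0
  have hr01 : 1 < r0 := by linarith
  have hr02 : r0 ≤ 2 := by linarith
  have huc : UniformContinuousOn gam (Set.Icc r0 2) := by
    apply isCompact_Icc.uniformContinuousOn_of_continuous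
    apply continuousOn_gam.mono
    intro x hx
    exact lt_of_lt_of_le hr01 hx.1
  rw [Metric.uniformContinuousOn_iff] at huc
  obtain ⟨δ1, hδ1, hδ1'⟩ := huc η hη
  set δ : ℝ := min η (δ1 / 2) with hδdef
  have hδ : 0 < δ := lt_min hη (by linarith)
  have hδη : δ ≤ η := min_le_left _ _
  have hδδ : δ ≤ δ1 / 2 := min_le_right _ _
  -- the maps
  have hmemrho : ∀ z : ℂ, rho z ∈ XSet := fun z => mem_XSet_of_norm_le (norm_rho_le z)
  have hmemgam : ∀ (z : XSet) (t : ℝ), 0 ≤ t → gam (max r0 (‖(z : ℂ)‖ - t)) ∈ XSet := by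
    intro z t ht
    apply gam_mem_XSet
    · exact lt_of_lt_of_le hr01 (le_max_left _ _)
    · apply max_le hr02
      have := norm_le_two z.2
      linarith
  let h0 : ℝ → XSet → ℂ := fun t z =>
    if ‖(z : ℂ)‖ < r0 then rho z else gam (max r0 (‖(z : ℂ)‖ - |t|))
  have hh0 : ∀ t z, h0 t z ∈ XSet := by
    intro t z
    simp only [h0]
    split_ifs
    · exact hmemrho _
    · exact hmemgam z _ (abs_nonneg t)
  let h : ℝ → XSet → XSet := fun t z => ⟨h0 t z, hh0 t z⟩
  -- main estimate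
  have hmax : ∀ (z : XSet) (t : ℝ), max r0 (‖(z : ℂ)‖ - |t|) ∈ Set.Icc r0 2 := by
    intro z t
    refine ⟨le_max_left _ _, max_le hr02 ?_⟩
    have := norm_le_two z.2
    have := abs_nonneg t
    linarith
  have hnorm : ∀ z z' : XSet, dist z z' < δ → |‖(z : ℂ)‖ - ‖(z' : ℂ)‖| < δ := by
    intro z z' hd
    refine lt_of_le_of_lt (abs_norm_sub_norm_le _ _) ?_
    rw [Subtype.dist_eq, dist_eq_norm] at hd
    exact hd
  have mixed : ∀ (t' : ℝ), 0 ≤ t' → ∀ z z' : XSet, dist z z' < δ → ‖(z : ℂ)‖ < r0 →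
      ¬ ‖(z' : ℂ)‖ < r0 → dist (rho z) (gam (max r0 (‖(z' : ℂ)‖ - |t'|))) < 3 * η := by
    intro t' ht' z z' hd h1 h2
    push Not at h2
    have e1 : dist (rho (z : ℂ)) (z : ℂ) ≤ η := by
      rw [dist_eq_norm]; exact rho_sub_le hη.le h1.le
    have e2 : dist (z : ℂ) (z' : ℂ) < δ := hd
    have e3 : dist (z' : ℂ) (gam (max r0 (‖(z' : ℂ)‖ - |t'|))) < η := by
      have hz' : (z' : ℂ) = gam ‖(z' : ℂ)‖ := eq_gam_of_mem z'.2 (by linarith)
      have hfin : dist (gam ‖(z' : ℂ)‖) (gam (max r0 (‖(z' : ℂ)‖ - |t'|))) < η := ?_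
      · rw [← hz'] at hfin; exact hfin
      apply hδ1' _ ⟨h2, norm_le_two z'.2⟩ _ (hmax z' t')
      rw [Real.dist_eq, abs_lt]
      have := abs_lt.1 (hnorm z z' hd)
      have h3 : r0 ≤ max r0 (‖(z' : ℂ)‖ - |t'|) := le_max_left _ _
      have h4 : max r0 (‖(z' : ℂ)‖ - |t'|) ≤ ‖(z' : ℂ)‖ := by
        apply max_le h2
        have := abs_nonneg t'
        linarith
      constructor
      · linarith
      · linarith [this.1]
    calc dist (rho (z : ℂ)) (gam (max r0 (‖(z' : ℂ)‖ - |t'|)))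
        ≤ dist (rho (z : ℂ)) (z : ℂ) + dist (z : ℂ) (z' : ℂ)
          + dist (z' : ℂ) (gam (max r0 (‖(z' : ℂ)‖ - |t'|))) := dist_triangle4 _ _ _ _
      _ < 3 * η := by linarith
  have main : ∀ t t' : ℝ, 0 ≤ t → 0 ≤ t' → |t - t'| ≤ δ1 / 4 → ∀ z z' : XSet,
      dist z z' < δ → dist (h0 t z) (h0 t' z') < 3 * η := by
    intro t t' ht ht' htt z z' hd
    simp only [h0]
    split_ifs with h1 h2 h2
    · have e1 : dist (rho (z : ℂ)) (z : ℂ) ≤ η := by
        rw [dist_eq_norm]; exact rho_sub_le hη.le h1.le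
      have e2 : dist (z' : ℂ) (rho (z' : ℂ)) ≤ η := by
        rw [dist_comm, dist_eq_norm]; exact rho_sub_le hη.le h2.le
      have e3 : dist (z : ℂ) (z' : ℂ) < δ := hd
      calc dist (rho (z : ℂ)) (rho (z' : ℂ))
          ≤ dist (rho (z : ℂ)) (z : ℂ) + dist (z : ℂ) (z' : ℂ)
            + dist (z' : ℂ) (rho (z' : ℂ)) := dist_triangle4 _ _ _ _
        _ < 3 * η := by linarith
    · exact mixed t' ht' z z' hd h1 h2
    · rw [dist_comm]
      exact mixed t ht z' z (by rw [dist_comm]; exact hd) h2 h1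
    · have : dist (gam (max r0 (‖(z : ℂ)‖ - |t|))) (gam (max r0 (‖(z' : ℂ)‖ - |t'|))) < η := by
        apply hδ1' _ (hmax z t) _ (hmax z' t')
        rw [Real.dist_eq]
        have h3 := hnorm z z' hd
        rw [max_comm r0, max_comm r0]
        refine lt_of_le_of_lt (abs_max_sub_max_le_abs _ _ _) ?_
        rw [abs_of_nonneg ht, abs_of_nonneg ht']
        have : ‖(z : ℂ)‖ - t - (‖(z' : ℂ)‖ - t') = (‖(z : ℂ)‖ - ‖(z' : ℂ)‖) - (t - t') := by ring
        rw [this]
        refine lt_of_le_of_lt (abs_sub _ _) ?_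
        linarith
      linarith
  -- stage 1
  have s1 : Close ε δ id (h 0) := by
    intro x x' hx
    refine ⟨by simp only [id]; linarith, ?_⟩
    have e1 : dist ((x' : ℂ)) (h0 0 x') ≤ η := by
      simp only [h0, abs_zero, sub_zero]
      split_ifs with h1
      · rw [dist_comm, dist_eq_norm]; exact rho_sub_le hη.le h1.le
      · push Not at h1
        rw [max_eq_right h1, ← eq_gam_of_mem x'.2 (by linarith), dist_self]
        exact hη.le
    calc dist (id x) (h 0 x') ≤ dist x x' + dist x' (h 0 x') := dist_triangle _ _ _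
      _ < δ + η := by
        have : dist x' (h 0 x') = dist ((x' : ℂ)) (h0 0 x') := rfl
        rw [this]; linarith
      _ ≤ ε := by linarith
  -- stage 2
  have s2 : Relation.ReflTransGen (Close ε δ) (h 0) (h 1) := by
    apply chain_of_family (τ := δ1 / 4) (by linarith) h
    intro t t' ht _ ht' _ htt x x' hx
    have : dist (h t x) (h t' x') = dist (h0 t x) (h0 t' x') := rfl
    rw [this]
    have := main t t' ht ht' htt x x' hx
    linarith
  -- stage 3
  have hn1 : ∀ z : XSet, ‖h0 1 z‖ ≤ 1 + η := by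
    intro z
    simp only [h0]
    split_ifs with h1
    · linarith [norm_rho_le (z : ℂ)]
    · have h2 := norm_le_two z.2
      rw [abs_one, max_eq_left (by linarith), norm_gam (by linarith)]
  let k0 : XSet → ℂ := fun z => rho (h0 1 z)
  have hk0 : ∀ z, ‖k0 z‖ ≤ 1 := fun z => norm_rho_le _
  let g : ℝ → XSet → XSet := fun t z => ⟨((1 - min 1 |t| : ℝ) : ℂ) * k0 z, by
    apply mem_XSet_of_norm_le
    rw [norm_mul, Complex.norm_real]
    have h1 : ‖(1 - min 1 |t| : ℝ)‖ ≤ 1 := by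
      rw [Real.norm_eq_abs, abs_le]
      have a := abs_nonneg t
      have b : min 1 |t| ≤ 1 := min_le_left _ _
      have c : 0 ≤ min 1 |t| := le_min zero_le_one a
      constructor <;> linarith
    calc ‖(1 - min 1 |t| : ℝ)‖ * ‖k0 z‖ ≤ 1 * 1 :=
          mul_le_mul h1 (hk0 z) (norm_nonneg _) zero_le_one
      _ = 1 := one_mul 1⟩
  have hkk : ∀ z z' : XSet, dist z z' < δ → dist (k0 z) (k0 z') < 5 * η := by
    intro z z' hd
    have e1 : dist (k0 z) (h0 1 z) ≤ η := by
      rw [dist_eq_norm]; exact rho_sub_le hη.le (hn1 z)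
    have e2 : dist (h0 1 z') (k0 z') ≤ η := by
      rw [dist_comm, dist_eq_norm]; exact rho_sub_le hη.le (hn1 z')
    have e3 := main 1 1 zero_le_one zero_le_one (by simpa using (by linarith : (0:ℝ) ≤ δ1 / 4)) z z' hd
    calc dist (k0 z) (k0 z') ≤ dist (k0 z) (h0 1 z) + dist (h0 1 z) (h0 1 z')
          + dist (h0 1 z') (k0 z') := dist_triangle4 _ _ _ _
      _ < 5 * η := by linarith
  have s3 : Close ε δ (h 1) (g 0) := by
    intro x x' hx
    have e3 := main 1 1 zero_le_one zero_le_one (by simpa using (by linarith : (0:ℝ) ≤ δ1 / 4)) x x' hx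
    have e2 : dist (h0 1 x') (k0 x') ≤ η := by
      rw [dist_comm, dist_eq_norm]; exact rho_sub_le hη.le (hn1 x')
    constructor
    · have : dist (h 1 x) (h 1 x') = dist (h0 1 x) (h0 1 x') := rfl
      rw [this]; linarith
    · have : dist (h 1 x) (g 0 x') = dist (h0 1 x) (k0 x') := by
        have e : ((g 0 x' : XSet) : ℂ) = k0 x' := by simp [g]
        rw [Subtype.dist_eq, e]
      rw [this]
      calc dist (h0 1 x) (k0 x') ≤ dist (h0 1 x) (h0 1 x') + dist (h0 1 x') (k0 x') :=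
            dist_triangle _ _ _
        _ < ε := by linarith
  have s4 : Relation.ReflTransGen (Close ε δ) (g 0) (g 1) := by
    apply chain_of_family (τ := η) hη g
    intro t t' ht ht1 ht' ht1' htt x x' hx
    have e0 : dist (g t x) (g t' x') =
        ‖((1 - t : ℝ) : ℂ) * k0 x - ((1 - t' : ℝ) : ℂ) * k0 x'‖ := by
      rw [Subtype.dist_eq, dist_eq_norm]
      simp only [g, abs_of_nonneg ht, abs_of_nonneg ht', min_eq_right ht1, min_eq_right ht1']
    rw [e0]
    have e1 : ((1 - t : ℝ) : ℂ) * k0 x - ((1 - t' : ℝ) : ℂ) * k0 x'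
        = ((1 - t : ℝ) : ℂ) * (k0 x - k0 x') + ((t' - t : ℝ) : ℂ) * k0 x' := by
      push_cast; ring
    rw [e1]
    have e2 := hkk x x' hx
    rw [dist_eq_norm] at e2
    calc ‖((1 - t : ℝ) : ℂ) * (k0 x - k0 x') + ((t' - t : ℝ) : ℂ) * k0 x'‖
        ≤ ‖((1 - t : ℝ) : ℂ) * (k0 x - k0 x')‖ + ‖((t' - t : ℝ) : ℂ) * k0 x'‖ := norm_add_le _ _
      _ = |1 - t| * ‖k0 x - k0 x'‖ + |t' - t| * ‖k0 x'‖ := by
        rw [norm_mul, norm_mul, Complex.norm_real, Complex.norm_real, Real.norm_eq_abs,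
          Real.norm_eq_abs]
      _ ≤ 1 * ‖k0 x - k0 x'‖ + η * 1 := by
        apply add_le_add
        · apply mul_le_mul_of_nonneg_right _ (norm_nonneg _)
          rw [abs_le]; constructor <;> linarith
        · apply mul_le_mul _ (hk0 x') (norm_nonneg _) hη.le
          rw [abs_sub_comm]; exact htt
      _ < ε := by linarith
  refine ⟨δ, hδ, ⟨0, mem_XSet_of_norm_le (by simp)⟩, ?_⟩
  have e : g 1 = fun _ => (⟨0, mem_XSet_of_norm_le (by simp)⟩ : XSet) := by
    funext z
    apply Subtype.ext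
    simp [g]
  rw [← e]
  exact ((Relation.ReflTransGen.single s1).trans s2).trans
    ((Relation.ReflTransGen.single s3).trans s4)

end Pool.Agent.LibConfluent
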