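import Mathlib
import Pool.Agent.LibConfluent.Defs
import Pool.Agent.LibConfluent.Space

set_option autoImplicit false

namespace Pool.Agent.LibConfluent

open Complex

/-- criterion for confluence on compact Hausdorff spaces -/
theorem confluent_of_clopen {X Y : Type} [TopologicalSpace X] [TopologicalSpace Y]
    [CompactSpace X] [T2Space X] [T2Space Y] {f : X → Y} (hf : Continuous f)
    (hs : Function.Surjective f)
    (h : ∀ K : Set Y, IsSubcontinuum K → ∀ O P : Set X, IsClosed O → IsClosed P →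
      O ∪ P = f ⁻¹' K → Disjoint O P → O.Nonempty → K ⊆ f '' O) : Confluent f := by
  refine ⟨hf, hs, fun K hK C hC => ?_⟩
  obtain ⟨x, hx, rfl⟩ := hC
  apply Set.Subset.antisymm
  · rintro _ ⟨y, hy, rfl⟩
    exact (connectedComponentIn_subset (f ⁻¹' K) x) hy
  · intro w hw
    have hEcl : IsClosed (f ⁻¹' K) := hK.1.isClosed.preimage hf
    have : CompactSpace (f ⁻¹' K) := isCompact_iff_compactSpace.1 hEcl.isCompact
    -- component of `x` as an intersection of clopen sets of the preimage
    rw [connectedComponentIn_eq_image hx, connectedComponent_eq_iInter_isClopen]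
    -- directed family of closed sets
    let E := (f ⁻¹' K : Set X)
    let S : { s : Set E // IsClopen s ∧ (⟨x, hx⟩ : E) ∈ s } → Set E :=
      fun s => s.1 ∩ {e | f (e : X) = w}
    have hI : Nonempty { s : Set E // IsClopen s ∧ (⟨x, hx⟩ : E) ∈ s } :=
      ⟨⟨Set.univ, isClopen_univ, Set.mem_univ _⟩⟩
    have hne : (⋂ s, S s).Nonempty := by
      apply IsCompact.nonempty_iInter_of_directed_nonempty_isCompact_isClosed
      · intro s t
        refine ⟨⟨s.1 ∩ t.1, s.2.1.inter t.2.1, s.2.2, t.2.2⟩, ?_, ?_⟩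
        · rintro e ⟨⟨h1, _⟩, h3⟩; exact ⟨h1, h3⟩
        · rintro e ⟨⟨_, h2⟩, h3⟩; exact ⟨h2, h3⟩
      · intro s
        have hO : IsClosed (Subtype.val '' s.1 : Set X) :=
          hEcl.isClosedEmbedding_subtypeVal.isClosedMap _ s.2.1.1
        have hP : IsClosed (Subtype.val '' (s.1)ᶜ : Set X) :=
          hEcl.isClosedEmbedding_subtypeVal.isClosedMap _ s.2.1.compl.1
        have := h K hK _ _ hO hP (by
          rw [← Set.image_union, Set.union_compl_self, Set.image_univ, Subtype.range_coe])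
          ((Set.disjoint_image_iff Subtype.val_injective).2 disjoint_compl_right)
          ⟨x, ⟨x, hx⟩, s.2.2, rfl⟩ hw
        obtain ⟨_, ⟨e, he, rfl⟩, hew⟩ := this
        exact ⟨e, he, hew⟩
      · intro s
        apply IsClosed.isCompact
        exact s.2.1.1.inter (isClosed_eq (hf.comp continuous_subtype_val) continuous_const)
      · intro s
        exact s.2.1.1.inter (isClosed_eq (hf.comp continuous_subtype_val) continuous_const)
    obtain ⟨e, he⟩ := hne
    rw [Set.mem_iInter] at he
    refine ⟨(e : X), ⟨e, ?_, rfl⟩, ?_⟩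
    · rw [Set.mem_iInter]
      intro s
      exact (he s).1
    · exact (he ⟨Set.univ, isClopen_univ, Set.mem_univ _⟩).2

/-- the image space -/
def YSet : Set ℂ := (fun z => z ^ 2) '' XSet

/-- the squaring map -/
def sq : XSet → YSet := fun z => ⟨(z : ℂ) ^ 2, z, z.2, rfl⟩

theorem continuous_sq : Continuous sq := by
  unfold sq
  fun_prop

theorem surjective_sq : Function.Surjective sq := by
  rintro ⟨_, z, hz, rfl⟩
  exact ⟨⟨z, hz⟩, rfl⟩

theorem norm_sq (z : XSet) : ‖(sq z : ℂ)‖ = ‖(z : ℂ)‖ ^ 2 := by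
  simp [sq]

instance : CompactSpace YSet :=
  isCompact_iff_compactSpace.1 (isCompact_XSet.image (by fun_prop))

/-- points of the part `1 ≤ ‖z‖ ≤ R` -/
def collar (R : ℝ) : Set XSet := {z | 1 ≤ ‖(z : ℂ)‖ ∧ ‖(z : ℂ)‖ ≤ R}

/-- the open part of the collar -/
def rayPart (R : ℝ) : Set XSet := {z | 1 < ‖(z : ℂ)‖ ∧ ‖(z : ℂ)‖ ≤ R}

theorem rayPart_preconnected {R : ℝ} (hR : R ≤ 2) : IsPreconnected (rayPart R) := by
  have h1 : IsPreconnected (Subtype.val '' rayPart R : Set ℂ) := by
    have : (Subtype.val '' rayPart R : Set ℂ) = tail R := by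
      ext z
      constructor
      · rintro ⟨w, hw, rfl⟩
        exact ⟨‖(w : ℂ)‖, ⟨hw.1, hw.2⟩, (eq_gam_of_mem w.2 hw.1).symm⟩
      · rintro ⟨r, hr, rfl⟩
        refine ⟨⟨gam r, gam_mem_XSet hr.1 (hr.2.trans hR)⟩, ?_, rfl⟩
        have : ‖gam r‖ = r := norm_gam (by linarith [hr.1])
        simp only [rayPart, Set.mem_ofPred_eq, this]
        exact ⟨hr.1, hr.2⟩
    rw [this]
    exact tail_preconnected R
  exact (Topology.IsInducing.subtypeVal.isPreconnected_image).1 h1

theorem circle_subset_closure_rayPart {R : ℝ} (hR1 : 1 < R) (hR : R ≤ 2) {u : XSet}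
    (hu : ‖(u : ℂ)‖ = 1) : u ∈ closure (rayPart R) := by
  rw [closure_subtype]
  have : (Subtype.val '' rayPart R : Set ℂ) = tail R := by
    ext z
    constructor
    · rintro ⟨w, hw, rfl⟩
      exact ⟨‖(w : ℂ)‖, ⟨hw.1, hw.2⟩, (eq_gam_of_mem w.2 hw.1).symm⟩
    · rintro ⟨r, hr, rfl⟩
      refine ⟨⟨gam r, gam_mem_XSet hr.1 (hr.2.trans hR)⟩, ?_, rfl⟩
      have : ‖gam r‖ = r := norm_gam (by linarith [hr.1])
      simp only [rayPart, Set.mem_ofPred_eq, this]
      exact ⟨hr.1, hr.2⟩
  rw [this]
  exact circle_subset_closure_tail hR1 hu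

theorem collar_preconnected {R : ℝ} (hR1 : 1 < R) (hR : R ≤ 2) : IsPreconnected (collar R) := by
  apply (rayPart_preconnected hR).subset_closure
  · intro z hz; exact ⟨hz.1.le, hz.2⟩
  · intro z hz
    rcases hz.1.lt_or_eq with h | h
    · exact subset_closure ⟨h, hz.2⟩
    · exact circle_subset_closure_rayPart hR1 hR h.symm

/-- the closed disk part -/
def diskPart : Set XSet := {z | ‖(z : ℂ)‖ ≤ 1}

theorem diskPart_preconnected : IsPreconnected diskPart := by
  have h1 : IsPreconnected (Subtype.val '' diskPart : Set ℂ) := by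
    have : (Subtype.val '' diskPart : Set ℂ) = Metric.closedBall 0 1 := by
      ext z
      simp only [Set.mem_image, mem_closedBall_zero_iff]
      constructor
      · rintro ⟨w, hw, rfl⟩; exact hw
      · intro hz; exact ⟨⟨z, mem_XSet_of_norm_le hz⟩, hz, rfl⟩
    rw [this]
    exact (convex_closedBall 0 1).isPreconnected
  exact (Topology.IsInducing.subtypeVal.isPreconnected_image).1 h1

instance : ConnectedSpace XSet := by
  have h : IsPreconnected (Set.univ : Set XSet) := by
    have : (Set.univ : Set XSet) = diskPart ∪ collar 2 := by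
      ext z
      simp only [Set.mem_univ, Set.mem_union, true_iff]
      rcases le_total ‖(z : ℂ)‖ 1 with h | h
      · left; exact h
      · right; exact ⟨h, norm_le_two z.2⟩
    rw [this]
    apply IsPreconnected.union (⟨1, mem_XSet_of_norm_le (by simp)⟩ : XSet)
    · simp [diskPart]
    · simp [collar]
    · exact diskPart_preconnected
    · exact collar_preconnected (by norm_num) le_rfl
  exact { isPreconnected_univ := h, toNonempty := ⟨⟨0, mem_XSet_of_norm_le (by simp)⟩⟩ }

instance : ConnectedSpace YSet := surjective_sq.connectedSpace continuous_sq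

/-- two points with the same square: equal, or opposite points of the disk -/
theorem sq_eq {z z' : XSet} (h : sq z = sq z') :
    z = z' ∨ ((z' : ℂ) = -(z : ℂ) ∧ ‖(z : ℂ)‖ ≤ 1) := by
  have h1 : (z : ℂ) ^ 2 = (z' : ℂ) ^ 2 := congrArg Subtype.val h
  rcases sq_eq_sq_iff_eq_or_eq_neg.1 h1 with h2 | h2
  · left; exact Subtype.ext h2
  · by_cases h3 : ‖(z : ℂ)‖ ≤ 1
    · right; exact ⟨by rw [h2, neg_neg], h3⟩
    · push Not at h3
      left
      apply Subtype.ext
      have h4 : ‖(z' : ℂ)‖ = ‖(z : ℂ)‖ := by rw [h2, norm_neg]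
      rw [eq_gam_of_mem z.2 h3, eq_gam_of_mem z'.2 (by rw [h4]; exact h3), h4]

end Pool.Agent.LibConfluent
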