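import Mathlib
import Pool.Agent.LibConfluent.Defs
import Pool.Agent.LibConfluent.Space
import Pool.Agent.LibConfluent.SpaceMap

set_option autoImplicit false

namespace Pool.Agent.LibConfluent

open Complex

/-- points whose antipode lies in `O` -/
def anti (O : Set XSet) : Set XSet := {z | -(z : ℂ) ∈ (Subtype.val '' O : Set ℂ)}

theorem isClosed_anti {O : Set XSet} (hO : IsClosed O) : IsClosed (anti O) := by
  have h1 : IsClosed (Subtype.val '' O : Set ℂ) := (hO.isCompact.image continuous_subtype_val).isClosed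
  exact h1.preimage (continuous_subtype_val.neg)

theorem key_sat {K : Set YSet} (hK : IsSubcontinuum K) {O P : Set XSet} (hO : IsClosed O)
    (hOP : O ∪ P = sq ⁻¹' K) (hd : Disjoint O P) (hne : O.Nonempty)
    (hQ : IsClosed (P \ anti O)) : K ⊆ sq '' O := by
  have hF1 : IsClosed (sq '' O) := (hO.isCompact.image continuous_sq).isClosed
  have hF2 : IsClosed (sq '' (P \ anti O)) := (hQ.isCompact.image continuous_sq).isClosed
  have hcov : K ⊆ sq '' O ∪ sq '' (P \ anti O) := by
    intro w hw
    obtain ⟨z, rfl⟩ := surjective_sq w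
    have hz : z ∈ O ∪ P := by rw [hOP]; exact hw
    rcases hz with hz | hz
    · left; exact ⟨z, hz, rfl⟩
    · by_cases h : z ∈ anti O
      · left
        obtain ⟨z', hz', hzz'⟩ := h
        refine ⟨z', hz', ?_⟩
        apply Subtype.ext
        simp only [sq]
        rw [hzz', neg_sq]
      · right; exact ⟨z, ⟨hz, h⟩, rfl⟩
  by_contra hcon
  have hpre := (isPreconnected_closed_iff.1 hK.2.isPreconnected) _ _ hF1 hF2 hcov ?_ ?_
  · obtain ⟨w, _, ⟨z, hz, hzw⟩, ⟨z', hz', hz'w⟩⟩ := hpre
    rcases sq_eq (hzw.trans hz'w.symm) with h | ⟨h, _⟩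
    · subst h
      exact Set.disjoint_left.1 hd hz hz'.1
    · apply hz'.2
      refine ⟨z, hz, ?_⟩
      rw [h, neg_neg]
  · obtain ⟨z, hz⟩ := hne
    refine ⟨sq z, ?_, z, hz, rfl⟩
    have : z ∈ O ∪ P := Or.inl hz
    rw [hOP] at this
    exact this
  · rw [Set.not_subset] at hcon
    obtain ⟨w, hw, hw'⟩ := hcon
    refine ⟨w, hw, ?_⟩
    rcases hcov hw with h | h
    · exact absurd h hw'
    · exact h

theorem confluent_sq : Confluent sq := by
  apply confluent_of_clopen continuous_sq surjective_sq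
  intro K hK O P hO hP hOP hd hne
  have hE : IsClosed (sq ⁻¹' K) := hK.1.isClosed.preimage continuous_sq
  have hsub : ∀ z, z ∈ O ∨ z ∈ P ↔ sq z ∈ K := by
    intro z
    have : z ∈ O ∪ P ↔ z ∈ sq ⁻¹' K := by rw [hOP]
    exact this
  by_cases h1 : ∀ z ∈ sq ⁻¹' K, ‖(z : ℂ)‖ ≤ 1
  · -- everything lies in the disk
    apply key_sat hK hO hOP hd hne
    have : P \ anti O = P ∩ anti P := by
      ext z
      constructor
      · rintro ⟨hz, hz'⟩
        refine ⟨hz, ?_⟩
        have hzn : ‖(z : ℂ)‖ ≤ 1 := h1 z ((hsub z).1 (Or.inr hz))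
        have hmem : -(z : ℂ) ∈ XSet := mem_XSet_of_norm_le (by rw [norm_neg]; exact hzn)
        have hK' : sq ⟨-(z : ℂ), hmem⟩ ∈ K := by
          have : sq ⟨-(z : ℂ), hmem⟩ = sq z := by
            apply Subtype.ext; simp [sq]
          rw [this]; exact (hsub z).1 (Or.inr hz)
        rcases (hsub _).2 hK' with h | h
        · exact absurd ⟨_, h, rfl⟩ hz'
        · exact ⟨_, h, rfl⟩
      · rintro ⟨hz, ⟨z', hz', hzz'⟩⟩
        refine ⟨hz, ?_⟩
        rintro ⟨z'', hz'', hzz''⟩
        have : z' = z'' := Subtype.ext (hzz'.trans hzz''.symm)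
        subst this
        exact Set.disjoint_left.1 hd hz'' hz'
    rw [this]
    exact hP.inter (isClosed_anti hP)
  · push Not at h1
    obtain ⟨z1, hz1, hz1n⟩ := h1
    by_cases h2 : ∀ z ∈ sq ⁻¹' K, 1 < ‖(z : ℂ)‖
    · -- everything lies on the open ray
      apply key_sat hK hO hOP hd hne
      have : P \ anti O = P := by
        ext z
        constructor
        · rintro ⟨hz, _⟩; exact hz
        · intro hz
          refine ⟨hz, ?_⟩
          rintro ⟨z', hz', hzz'⟩
          have e1 : sq z = sq z' := by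
            apply Subtype.ext; simp [sq, hzz']
          have hn := h2 z ((hsub z).1 (Or.inr hz))
          rcases sq_eq e1 with h | ⟨_, h⟩
          · subst h; exact Set.disjoint_left.1 hd hz' hz
          · linarith
      rw [this]; exact hP
    · push Not at h2
      obtain ⟨z2, hz2, hz2n⟩ := h2
      -- collars are contained in the preimage
      have hcollar : ∀ z ∈ sq ⁻¹' K, 1 < ‖(z : ℂ)‖ → collar ‖(z : ℂ)‖ ⊆ sq ⁻¹' K := by
        intro z hz hzn
        have hray : rayPart ‖(z : ℂ)‖ ⊆ sq ⁻¹' K := by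
          intro x hx
          have hcont : ContinuousOn (fun w : YSet => ‖(w : ℂ)‖) K :=
            (continuous_subtype_val.norm).continuousOn
          have hivt := hK.2.isPreconnected.intermediate_value (f := fun w : YSet => ‖(w : ℂ)‖)
            (a := sq z2) (b := sq z) hz2 hz hcont
          have hx1 : 1 < ‖(x : ℂ)‖ := hx.1
          have hx2 : ‖(x : ℂ)‖ ≤ ‖(z : ℂ)‖ := hx.2
          have : ‖(x : ℂ)‖ ^ 2 ∈ Set.Icc ‖(sq z2 : ℂ)‖ ‖(sq z : ℂ)‖ := by
            rw [norm_sq, norm_sq]
            constructor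
            · nlinarith [norm_nonneg (z2 : ℂ)]
            · nlinarith
          obtain ⟨w, hw, hwx⟩ := hivt this
          obtain ⟨y, rfl⟩ := surjective_sq w
          have hy : ‖(y : ℂ)‖ = ‖(x : ℂ)‖ := by
            simp only [norm_sq] at hwx
            exact (sq_eq_sq₀ (norm_nonneg _) (norm_nonneg _)).1 hwx
          have : y = x := by
            apply Subtype.ext
            rw [eq_gam_of_mem y.2 (by rw [hy]; exact hx1), eq_gam_of_mem x.2 hx1, hy]
          rw [← this]; exact hw
        have hcl : closure (rayPart ‖(z : ℂ)‖) ⊆ sq ⁻¹' K := hE.closure_subset_iff.2 hray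
        intro x hx
        rcases hx.1.lt_or_eq with h | h
        · exact hray ⟨h, hx.2⟩
        · exact hcl (circle_subset_closure_rayPart hzn (norm_le_two z.2) h.symm)
      let T : Set XSet := {z | sq z ∈ K ∧ 1 ≤ ‖(z : ℂ)‖}
      have hT : IsPreconnected T := by
        apply isPreconnected_of_forall (⟨1, mem_XSet_of_norm_le (by simp)⟩ : XSet)
        intro y hy
        have hone : ∀ R : ℝ, 1 < R → (⟨1, mem_XSet_of_norm_le (by simp)⟩ : XSet) ∈ collar R := by
          intro R hR
          simp only [collar, Set.mem_ofPred_eq, norm_one]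
          exact ⟨le_rfl, hR.le⟩
        rcases hy.2.lt_or_eq with h | h
        · refine ⟨collar ‖(y : ℂ)‖, ?_, hone _ h, ⟨h.le, le_rfl⟩,
            collar_preconnected h (norm_le_two y.2)⟩
          intro x hx
          exact ⟨hcollar y hy.1 h hx, hx.1⟩
        · refine ⟨collar ‖(z1 : ℂ)‖, ?_, hone _ hz1n, ⟨h.le, by rw [← h]; exact hz1n.le⟩,
            collar_preconnected hz1n (norm_le_two z1.2)⟩
          intro x hx
          exact ⟨hcollar z1 hz1 hz1n hx, hx.1⟩
      have hTsub : T ⊆ O ∪ P := by
        intro z hz; exact (hsub z).2 hz.1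
      -- if `T ⊆ P'` for a splitting `O', P'` with `O'` nonempty we get a contradiction
      have claim : ∀ O' P' : Set XSet, IsClosed O' → IsClosed P' → O' ∪ P' = sq ⁻¹' K →
          Disjoint O' P' → O'.Nonempty → T ⊆ P' → False := by
        intro O' P' hO' hP' hOP' hd' hne' hTP
        have hsub' : ∀ z, z ∈ O' ∨ z ∈ P' ↔ sq z ∈ K := by
          intro z
          have : z ∈ O' ∪ P' ↔ z ∈ sq ⁻¹' K := by rw [hOP']
          exact this
        have hOn : ∀ z ∈ O', ‖(z : ℂ)‖ < 1 := by
          intro z hz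
          by_contra h
          push Not at h
          exact Set.disjoint_left.1 hd' hz (hTP ⟨(hsub' z).1 (Or.inl hz), h⟩)
        have hK' : K ⊆ sq '' O' := by
          apply key_sat hK hO' hOP' hd' hne'
          have : P' \ anti O' = (P' ∩ {z : XSet | 1 ≤ ‖(z : ℂ)‖}) ∪ (P' ∩ anti P') := by
            ext z
            constructor
            · rintro ⟨hz, hz'⟩
              by_cases hzn : 1 ≤ ‖(z : ℂ)‖
              · left; exact ⟨hz, hzn⟩
              · right
                push Not at hzn
                refine ⟨hz, ?_⟩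
                have hmem : -(z : ℂ) ∈ XSet :=
                  mem_XSet_of_norm_le (by rw [norm_neg]; exact hzn.le)
                have hK' : sq ⟨-(z : ℂ), hmem⟩ ∈ K := by
                  have : sq ⟨-(z : ℂ), hmem⟩ = sq z := by
                    apply Subtype.ext; simp [sq]
                  rw [this]; exact (hsub' z).1 (Or.inr hz)
                rcases (hsub' _).2 hK' with h | h
                · exact absurd ⟨_, h, rfl⟩ hz'
                · exact ⟨_, h, rfl⟩
            · rintro (⟨hz, hzn⟩ | ⟨hz, ⟨z', hz', hzz'⟩⟩)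
              · refine ⟨hz, ?_⟩
                rintro ⟨z', hz', hzz'⟩
                have := hOn z' hz'
                rw [hzz', norm_neg] at this
                have hzn' : 1 ≤ ‖(z : ℂ)‖ := hzn
                linarith
              · refine ⟨hz, ?_⟩
                rintro ⟨z'', hz'', hzz''⟩
                have : z' = z'' := Subtype.ext (hzz'.trans hzz''.symm)
                subst this
                exact Set.disjoint_left.1 hd' hz'' hz'
          rw [this]
          apply IsClosed.union
          · exact hP'.inter (isClosed_le continuous_const (continuous_subtype_val.norm))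
          · exact hP'.inter (isClosed_anti hP')
        obtain ⟨z, hz, hzz⟩ := hK' hz1
        have h3 := hOn z hz
        have h4 : ‖(z : ℂ)‖ ^ 2 = ‖(z1 : ℂ)‖ ^ 2 := by
          rw [← norm_sq, ← norm_sq, hzz]
        nlinarith [norm_nonneg (z : ℂ)]
      have hdic := isPreconnected_iff_subset_of_disjoint_closed.1 hT O P hO hP hTsub
        (by rw [Set.disjoint_iff_inter_eq_empty.1 hd, Set.inter_empty])
      rcases hdic with h | h
      · -- `T ⊆ O`: then `P` is empty
        have hPe : P = ∅ := by
          by_contra hPne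
          exact claim P O hP hO (by rw [Set.union_comm]; exact hOP) hd.symm
            (Set.nonempty_iff_ne_empty.2 hPne) h
        intro w hw
        obtain ⟨z, rfl⟩ := surjective_sq w
        rcases (hsub z).2 hw with h | h
        · exact ⟨z, h, rfl⟩
        · rw [hPe] at h; exact absurd h (Set.notMem_empty _)
      · exact absurd (claim O P hO hP hOP hd hne h) not_false

/-- the diagonal over the outer part -/
def LSet : Set (YSet × YSet) := {p | p.1 = p.2 ∧ 1 ≤ ‖(p.1 : ℂ)‖}

theorem LSet_subcontinuum : IsSubcontinuum LSet := by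
  constructor
  · apply IsClosed.isCompact
    exact (isClosed_eq continuous_fst continuous_snd).inter
      (isClosed_le continuous_const ((continuous_subtype_val.comp continuous_fst).norm))
  · have : LSet = (fun z : XSet => (sq z, sq z)) '' collar 2 := by
      ext ⟨w, w'⟩
      constructor
      · rintro ⟨h1, h2⟩
        simp only at h1 h2
        subst h1
        obtain ⟨z, rfl⟩ := surjective_sq w
        refine ⟨z, ⟨?_, norm_le_two z.2⟩, rfl⟩
        rw [norm_sq] at h2
        by_contra h
        push Not at h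
        nlinarith [norm_nonneg (z : ℂ)]
      · rintro ⟨z, hz, h⟩
        rw [Prod.mk.injEq] at h
        obtain ⟨rfl, rfl⟩ := h
        refine ⟨rfl, ?_⟩
        simp only [norm_sq]
        have : 1 ≤ ‖(z : ℂ)‖ := hz.1
        nlinarith
    rw [this]
    refine IsConnected.image ⟨⟨⟨1, mem_XSet_of_norm_le (by simp)⟩, ?_⟩,
      collar_preconnected (by norm_num) le_rfl⟩ _ ?_
    · simp [collar]
    · exact (continuous_sq.prodMk continuous_sq).continuousOn

theorem not_image_component : ∃ C : Set (XSet × XSet),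
    IsComponentOf C (Prod.map sq sq ⁻¹' LSet) ∧ Prod.map sq sq '' C ≠ LSet := by
  let x0 : XSet × XSet := (⟨1, mem_XSet_of_norm_le (by simp)⟩, ⟨-1, mem_XSet_of_norm_le (by simp)⟩)
  have hx0 : x0 ∈ Prod.map sq sq ⁻¹' LSet := by
    refine ⟨?_, ?_⟩
    · apply Subtype.ext; simp [x0, sq]
    · simp [x0, sq]
  refine ⟨connectedComponentIn (Prod.map sq sq ⁻¹' LSet) x0, ⟨x0, hx0, rfl⟩, ?_⟩
  intro hcon
  set C := connectedComponentIn (Prod.map sq sq ⁻¹' LSet) x0 with hC
  have hCpre : IsPreconnected C := isPreconnected_connectedComponentIn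
  have hCsub : C ⊆ Prod.map sq sq ⁻¹' LSet := connectedComponentIn_subset _ _
  have hx0C : x0 ∈ C := mem_connectedComponentIn hx0
  let Fp : Set (XSet × XSet) := {p | (p.2 : ℂ) = (p.1 : ℂ)}
  let Fm : Set (XSet × XSet) := {p | (p.2 : ℂ) = -(p.1 : ℂ)}
  have hFp : IsClosed Fp := isClosed_eq (continuous_subtype_val.comp continuous_snd)
    (continuous_subtype_val.comp continuous_fst)
  have hFm : IsClosed Fm := isClosed_eq (continuous_subtype_val.comp continuous_snd)
    (continuous_subtype_val.comp continuous_fst).neg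
  have hcov : C ⊆ Fp ∪ Fm := by
    intro p hp
    rcases sq_eq (hCsub hp).1 with h | ⟨h, _⟩
    · left
      show ((p.2 : XSet) : ℂ) = p.1
      rw [h]
    · right; exact h
  have hdisj : C ∩ (Fp ∩ Fm) = ∅ := by
    rw [Set.eq_empty_iff_forall_notMem]
    rintro p ⟨hp, hp1, hp2⟩
    have h1 : ((p.2 : XSet) : ℂ) = p.1 := hp1
    have h2 : ((p.2 : XSet) : ℂ) = -p.1 := hp2
    have h3 : ((p.1 : XSet) : ℂ) = 0 := by
      have : ((p.1 : XSet) : ℂ) = -p.1 := h1.symm.trans h2
      exact CharZero.eq_neg_self_iff.1 this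
    have h4 : 1 ≤ ‖(sq p.1 : ℂ)‖ := (hCsub hp).2
    rw [norm_sq, h3] at h4
    norm_num at h4
  rcases isPreconnected_iff_subset_of_disjoint_closed.1 hCpre Fp Fm hFp hFm hcov hdisj with
    h | h
  · have h1 : ((x0.2 : XSet) : ℂ) = x0.1 := h hx0C
    simp [x0] at h1
    norm_num at h1
  · -- every point of `C` is `(z, -z)`; take a point over the outer end of the spiral
    have hg : gam 2 ∈ XSet := gam_mem_XSet (by norm_num) le_rfl
    have hn2 : ‖gam 2‖ = 2 := norm_gam (by norm_num)
    have hL : ((sq ⟨gam 2, hg⟩, sq ⟨gam 2, hg⟩) : YSet × YSet) ∈ LSet := by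
      refine ⟨rfl, ?_⟩
      simp only [norm_sq, hn2]
      norm_num
    rw [← hcon] at hL
    obtain ⟨⟨z, z'⟩, hzC, hz⟩ := hL
    have hz1 : sq z = sq ⟨gam 2, hg⟩ := congrArg Prod.fst hz
    have hz2 : sq z' = sq ⟨gam 2, hg⟩ := congrArg Prod.snd hz
    have n1 : ‖(z : ℂ)‖ = 2 := by
      have : ‖(z : ℂ)‖ ^ 2 = 2 ^ 2 := by rw [← norm_sq, hz1, norm_sq]; simp only [hn2]
      exact (sq_eq_sq₀ (norm_nonneg _) (by norm_num)).1 this
    have n2 : ‖(z' : ℂ)‖ = 2 := by
      have : ‖(z' : ℂ)‖ ^ 2 = 2 ^ 2 := by rw [← norm_sq, hz2, norm_sq]; simp only [hn2]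
      exact (sq_eq_sq₀ (norm_nonneg _) (by norm_num)).1 this
    have e1 : (z : ℂ) = gam 2 := by
      rw [eq_gam_of_mem z.2 (by rw [n1]; norm_num), n1]
    have e2 : (z' : ℂ) = gam 2 := by
      rw [eq_gam_of_mem z'.2 (by rw [n2]; norm_num), n2]
    have h3 : (z' : ℂ) = -(z : ℂ) := h hzC
    rw [e1, e2] at h3
    have h4 : gam 2 = 0 := CharZero.eq_neg_self_iff.1 h3
    rw [h4, norm_zero] at hn2
    norm_num at hn2

end Pool.Agent.LibConfluent
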