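import Mathlib
import Pool.Agent.LibConfluent.Defs
import Pool.Agent.LibConfluent.SpaceAcyclic
import Pool.Agent.LibConfluent.SpaceConfluent

set_option autoImplicit false

namespace Pool.Agent.LibConfluent.AcyclicFails

open Pool.Agent.LibConfluent

/-- There is a confluent mapping `f` of an acyclic continuum `X` onto a continuum `Y` such that
`f × f` is not confluent. -/
theorem result : ∃ (X Y : Type) (_ : MetricSpace X) (_ : MetricSpace Y) (f : X → Y),
    CompactSpace X ∧ ConnectedSpace X ∧ CompactSpace Y ∧ ConnectedSpace Y ∧
    CechAcyclic X ∧ Confluent f ∧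
    ∃ (L : Set (Y × Y)) (C : Set (X × X)), IsSubcontinuum L ∧
      IsComponentOf C (Prod.map f f ⁻¹' L) ∧ Prod.map f f '' C ≠ L := by
  obtain ⟨C, hC, hC'⟩ := not_image_component
  exact ⟨XSet, YSet, inferInstance, inferInstance, sq, inferInstance, inferInstance,
    inferInstance, inferInstance, cechAcyclic_of_chainContractible chainContractible_XSet,
    confluent_sq, LSet, C, LSet_subcontinuum, hC, hC'⟩

end Pool.Agent.LibConfluent.AcyclicFails
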